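import Pool.Agent.Helper98.QR.StmtsE
import Pool.Agent.Helper91.QR.PermLib

/-!
# QR block E, row E05: finite maps are regular
-/

namespace QR

namespace H93

open Equiv

variable {D : Type}

lemma tail_eq (m : RMap D) {d e : D} : m.tail d = m.tail e ↔ m.rot.SameCycle d e :=
  Quotient.eq (r := Perm.SameCycle.setoid m.rot)

lemma tail_face (m : RMap D) (d : D) : m.tail (m.face d) = m.tail (m.opp d) := by
  rw [tail_eq]
  exact ⟨-1, by simp [RMap.face]⟩

lemma bg_b (m : RMap D) (o : D) (i : ℤ) : (m.bg o).b i = m.tail ((m.face ^ i) o) := rfl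

lemma face_succ (m : RMap D) (o : D) (i : ℤ) : (m.face ^ (i + 1)) o = m.face ((m.face ^ i) o) := by
  rw [add_comm, zpow_one_add, Perm.mul_apply]

lemma adj [Finite D] (m : RMap D) (o : D) (i : ℤ) :
    m.mult ((m.bg o).b i) ((m.bg o).b (i + 1)) ≠ 0 := by
  have : Nonempty {d : D // m.tail d = (m.bg o).b i ∧ m.tail (m.opp d) = (m.bg o).b (i + 1)} :=
    ⟨⟨(m.face ^ i) o, rfl, by rw [bg_b, face_succ, tail_face]⟩⟩
  exact Nat.card_pos.ne'

lemma mult_symm (m : RMap D) (x y : m.Vert) : m.mult x y = m.mult y x := by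
  refine Nat.card_congr (m.opp.subtypeEquiv fun d => ?_)
  rw [m.opp_opp]
  exact and_comm

lemma zpow_fix (σ : Perm D) (x : D) (k : ℤ) :
    (σ ^ k) x = x ↔ (Function.minimalPeriod σ x : ℤ) ∣ k :=
  MulAction.zpow_smul_eq_iff_minimalPeriod_dvd (a := σ) (b := x) (n := k)

lemma zpow_eq (σ : Perm D) (x : D) (i j : ℤ) :
    (σ ^ i) x = (σ ^ j) x ↔ (Function.minimalPeriod σ x : ℤ) ∣ i - j := by
  rw [← zpow_fix, sub_eq_add_neg, add_comm, zpow_add, Perm.mul_apply, zpow_neg, Perm.inv_eq_iff_eq]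

lemma period {n p : ℕ} {x : RMap (Fin (4 * n + 2 * p)) × Fin (4 * n + 2 * p)} (hx : x ∈ SQ n p) :
    Function.minimalPeriod x.1.face x.2 = 2 * p := by
  exact (H91.card_sc x.1.face x.2).symm.trans hx.1.outer

lemma b_eq {n p : ℕ} {x : RMap (Fin (4 * n + 2 * p)) × Fin (4 * n + 2 * p)} (hx : x ∈ SQ n p)
    (i j : ℤ) : (x.1.bg x.2).b i = (x.1.bg x.2).b j ↔ (2 * (p : ℤ)) ∣ i - j := by
  have h : (x.1.bg x.2).b i = (x.1.bg x.2).b j ↔ (x.1.face ^ i) x.2 = (x.1.face ^ j) x.2 :=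
    ⟨fun h => hx.2 _ _ ⟨i, rfl⟩ ⟨j, rfl⟩ h, fun h => congrArg x.1.tail h⟩
  rw [h, zpow_eq, period hx]
  push_cast
  rfl

end H93

open H93 in
theorem st_E05 : ST_E05 := by
  intro n p hp x hx
  refine ⟨fun i => adj x.1 x.2 i, fun i j => b_eq hx i j, fun y hy => ?_⟩
  refine ⟨mult_symm x.1, mult_symm y.1, fun _ => Set.toFinite _, fun _ => Set.toFinite _,
    adj x.1 x.2, adj y.1 y.2, fun i j k h => ?_, fun i j k h => ?_, fun i j => ?_⟩
  · rw [b_eq hx] at h ⊢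
    have : i + k - (j + k) = i - j := by ring
    rwa [this]
  · rw [b_eq hy] at h ⊢
    have : i + k - (j + k) = i - j := by ring
    rwa [this]
  · rw [b_eq hx, b_eq hy, ← dvd_neg]
    have : -(i - j) = 1 - i - (1 - j) := by ring
    rw [this]

end QR
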